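import Pool.Agent.helper19.MX.Asm

/-!
# MP_a875de_ag, Q1 (partial answer): in characteristic two every genus is attained over all large fields

For every `G` there is `n₀` such that for all `n ≥ n₀` every integer `0 ≤ g ≤ G` is the genus of a maximal curve over the
field with `4 ^ n` elements. Definitions: `MX.HasMaxCurve`, `MX.numPts`, `MX.DegOne`
(`Pool/Agent/helper19/MX/Defs.lean`), function fields, places, genus (`Pool/Agent/helper53/AU/Defs.lean`), constant field
extensions (`AN.IsConstExt`, `Pool/Agent/helper48/AN/Problem.lean`).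
-/

namespace Pool.Agent.Results.MP_a875de_ag.EveryGenus

/-- For every `G` there is `n₀` such that for all `n ≥ n₀`, every field `K` with `4 ^ n` elements and every `g ≤ G` there is
a maximal curve of genus `g` over `K`. -/
theorem result : ∀ G : ℕ, ∃ n₀ : ℕ, ∀ n : ℕ, n₀ ≤ n →
    ∀ (K : Type) [Field K] [Fintype K], Fintype.card K = 4 ^ n →
      ∀ g : ℕ, g ≤ G → MX.HasMaxCurve K g := by
  intro G
  obtain ⟨n₀, h⟩ := MX.a_MAI G
  exact ⟨n₀, fun n hn K _ _ hK g hg => h n hn K hK g hg⟩

end Pool.Agent.Results.MP_a875de_ag.EveryGenus
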